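import Mathlib
import Pool.Agent.H321R2.OSI.Lower

/-!
# Q1: with a constant failure probability the `1 + O(ε)` bound fails

For every fixed failure probability `δ > 0` there is an oblivious subspace injection of dimension
`1` with injectivity `1` (so `1 - ε` for every `ε`) for which the randomized SVD of a suitable
matrix has, for every outcome, an error at least `(1 + c)` times the optimal one.
-/

namespace Pool.Agent.Results.MP_082b65_an.ConstantFailureFails

open MeasureTheory Matrix Finset Pool.Agent.H321R2.OSI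

/-- The assertion of Q1 with failure probability `δ`, constant `C` and success probability `p₀`:
for every `ε ∈ (0,1)`, every real matrix `A` (`n × d`), every `1 ≤ r ≤ d` and every random
`d × k` matrix `S` that is an oblivious subspace injection with dimension `r`, injectivity `1 - ε`
and failure probability `δ`, there is an event `D` of probability at least `p₀` on which
`‖A - Ã‖_F ≤ (1 + C ε) ‖A - A_r‖_F`. -/
def RelativeErrorBound (δ C p₀ : ℝ) : Prop :=
  ∀ ε : ℝ, 0 < ε → ε < 1 →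
    ∀ (n d k r : ℕ), 1 ≤ r → r ≤ d → ∀ (A : Matrix (Fin n) (Fin d) ℝ)
      (W : Type) (_ : MeasurableSpace W) (P : Measure W) (_ : IsProbabilityMeasure P)
      (S : W → Matrix (Fin d) (Fin k) ℝ), IsOSI P S r (1 - ε) δ →
        ∃ D : Set W, MeasurableSet D ∧ p₀ ≤ P.real D ∧
          ∀ w ∈ D, frob (A - rsvd A (S w)) ≤ (1 + C * ε) * bestErr A r

theorem result (δ : ℝ) (hδ : 0 < δ) (C p₀ : ℝ) (hp₀ : 0 < p₀) : ¬ RelativeErrorBound δ C p₀ := by
  intro h
  obtain ⟨K₀, hK₀⟩ := exists_nat_ge (2 / δ)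
  set K : ℕ := K₀ + 2 with hKdef
  have hK2 : 2 ≤ K := by omega
  have : NeZero K := ⟨by omega⟩
  have hKr : (2 : ℝ) ≤ K := by exact_mod_cast hK2
  have hK0 : (0 : ℝ) < K := by linarith
  have hδK : 2 ≤ δ * K := by
    rw [div_le_iff₀ hδ] at hK₀
    have : (K : ℝ) = K₀ + 2 := by rw [hKdef]; push_cast; ring
    rw [this]
    nlinarith
  -- coherence
  set μ : ℝ := 1 / (2 * (K : ℝ) ^ 2) with hμ
  have hμ0 : 0 < μ := by positivity
  have hμ1 : μ ≤ 1 := by
    rw [hμ, div_le_one (by positivity)]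
    nlinarith
  have hμK : 2 * μ ^ 2 * (K : ℝ) ^ 3 ≤ 1 := by
    have : 2 * μ ^ 2 * (K : ℝ) ^ 3 = 1 / (2 * K) := by
      rw [hμ]; field_simp
    rw [this, div_le_one (by positivity)]
    linarith
  set s : ℝ := μ / 2 with hs
  have hs0 : 0 < s := by positivity
  have hs1 : s ≤ 1 := by linarith
  have hs2 : s ^ 2 ≤ μ / 2 := by nlinarith
  obtain ⟨p, hp, hpp⟩ := Nat.exists_infinite_primes (⌈8 / s ^ 2 + 2 / μ + 2⌉₊)
  have : Fact p.Prime := ⟨hpp⟩
  have hpr : 8 / s ^ 2 + 2 / μ + 2 ≤ p := (Nat.le_ceil _).trans (by exact_mod_cast hp)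
  have hs2pos : 0 < s ^ 2 := by positivity
  have h8 : 8 / s ^ 2 ≤ p := by
    have : 0 ≤ 2 / μ := by positivity
    linarith
  have h2 : 2 / μ ≤ p - 1 := by
    have : 0 ≤ 8 / s ^ 2 := by positivity
    linarith
  have hp2 : (2 : ℝ) ≤ p := by
    have : 0 ≤ 8 / s ^ 2 := by positivity
    have : 0 ≤ 2 / μ := by positivity
    linarith
  obtain ⟨w, hw1, hw2, hw3⟩ := exists_lowcoh (p := p)
  have hb : ∀ j, gram (brow s w) j j = 1 := by
    intro j
    refine Fin.cases (gram_brow_zero s w) (fun j => ?_) j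
    rw [gram_brow_succ s (by nlinarith) w, hw1]
    ring
  have hcoh : 1 / ((p : ℝ) - 1) ≤ μ / 2 := by
    rw [div_le_iff₀ (by linarith)]
    rw [div_le_iff₀ hμ0] at h2
    linarith
  have hμb : ∀ j l, j ≠ l → |gram (brow s w) j l| ≤ μ := by
    intro j l
    refine Fin.cases ?_ (fun j => ?_) j <;> refine Fin.cases ?_ (fun l => ?_) l
    · intro h; exact absurd rfl h
    · intro _
      rw [gram_brow_zero_succ, abs_of_pos hs0]
      linarith
    · intro _
      rw [gram_symm, gram_brow_zero_succ, abs_of_pos hs0]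
      linarith
    · intro hjl
      have hjl' : j ≠ l := fun h => hjl (by rw [h])
      rw [gram_brow_succ s (by nlinarith) w]
      have h3 := (hw2 j l hjl').trans hcoh
      have h4 : |(1 - s ^ 2) * ∑ i, w j i * w l i| ≤ μ / 2 := by
        rw [abs_mul]
        have h5 : |1 - s ^ 2| ≤ 1 := by
          rw [abs_le]; constructor <;> nlinarith
        calc |1 - s ^ 2| * |∑ i, w j i * w l i| ≤ 1 * |∑ i, w j i * w l i| := by gcongr
          _ ≤ μ / 2 := by rw [one_mul]; exact h3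
      calc |s ^ 2 + (1 - s ^ 2) * ∑ i, w j i * w l i|
          ≤ |s ^ 2| + |(1 - s ^ 2) * ∑ i, w j i * w l i| := abs_add_le _ _
        _ ≤ μ / 2 + μ / 2 := by
            rw [abs_of_pos hs2pos]
            exact add_le_add hs2 h4
        _ = μ := by ring
  have hosi := fun ε (hε : (0:ℝ) ≤ ε) => isOSI_Smat hK2 (brow s w) hb μ hμb hμK δ hδK ε hε
  -- the number of columns is small
  have hk : (((p ^ 2 : ℕ) : ℝ) + 1) ≤ ((p ^ 3 : ℕ) : ℝ) * s ^ 2 / 4 := by
    push_cast
    have h6 : 8 ≤ (p : ℝ) * s ^ 2 := by rwa [div_le_iff₀ hs2pos] at h8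
    have h7 : (p : ℝ) ^ 3 * s ^ 2 / 4 = (p : ℝ) ^ 2 * ((p : ℝ) * s ^ 2) / 4 := by ring
    rw [h7]
    have h9 : (4 : ℝ) ≤ (p : ℝ) ^ 2 := by nlinarith
    nlinarith
  have hNpos : 0 < p ^ 3 := pow_pos hpp.pos 3
  -- choose `ε`
  set ε : ℝ := s ^ 2 / (32 * (|C| + 1)) with hε
  have hC1 : 0 < |C| + 1 := by positivity
  have hε0 : 0 < ε := by positivity
  have hεC : |C| * ε ≤ s ^ 2 / 32 := by
    rw [hε, ← mul_div_assoc, div_le_div_iff₀ (by positivity) (by norm_num)]
    have := abs_nonneg C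
    nlinarith
  have hε1 : ε < 1 := by
    rw [hε, div_lt_one (by positivity)]
    have := abs_nonneg C
    nlinarith
  obtain ⟨D, hD1, hD2, hD3⟩ := h ε hε0 hε1 (p ^ 3 + 1) (p ^ 3 + 1) (p ^ 2 + 1) 1 le_rfl (by omega)
    (diagonal (avec (p ^ 3))) (Smp K (p ^ 3 + 1)) inferInstance (unif (Smp K (p ^ 3 + 1)))
    inferInstance (Smat K (brow s w)) (hosi ε hε0.le)
  -- `D` is nonempty
  have hDne : D.Nonempty := by
    by_contra hempty
    rw [Set.not_nonempty_iff_eq_empty] at hempty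
    rw [hempty, measureReal_empty] at hD2
    linarith
  obtain ⟨ω, hω⟩ := hDne
  have h10 := hD3 ω hω
  have h11 := err_lower hK2 s hs1 hs0 w hw3 hNpos hk ω
  have h12 := bestErr_le (p ^ 3)
  set E := frob (diagonal (avec (p ^ 3)) - rsvd (diagonal (avec (p ^ 3)))
    (Smat K (brow s w) ω)) with hE
  have hE0 : 0 ≤ E := Real.sqrt_nonneg _
  set NN : ℝ := ((p ^ 3 : ℕ) : ℝ) with hNN
  have hNN0 : 0 < NN := by rw [hNN]; exact_mod_cast hNpos
  have h13 : E ≤ (1 + s ^ 2 / 32) * Real.sqrt NN := by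
    refine h10.trans ?_
    have h14 : 0 ≤ bestErr (diagonal (avec (p ^ 3))) 1 := by
      unfold bestErr
      apply Real.sInf_nonneg
      rintro e ⟨B, _, rfl⟩
      exact Real.sqrt_nonneg _
    have h15 : 1 + C * ε ≤ 1 + s ^ 2 / 32 := by
      have := mul_le_mul_of_nonneg_right (le_abs_self C) hε0.le
      linarith
    calc (1 + C * ε) * bestErr (diagonal (avec (p ^ 3))) 1
        ≤ (1 + s ^ 2 / 32) * bestErr (diagonal (avec (p ^ 3))) 1 :=
          mul_le_mul_of_nonneg_right h15 h14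
      _ ≤ _ := mul_le_mul_of_nonneg_left h12 (by positivity)
  have h16 : E ^ 2 ≤ (1 + s ^ 2 / 32) ^ 2 * NN := by
    calc E ^ 2 ≤ ((1 + s ^ 2 / 32) * Real.sqrt NN) ^ 2 := pow_le_pow_left₀ hE0 h13 2
      _ = (1 + s ^ 2 / 32) ^ 2 * NN := by rw [mul_pow, Real.sq_sqrt hNN0.le]
  have h17 : NN * (1 + s ^ 2 / 4) ≤ (1 + s ^ 2 / 32) ^ 2 * NN := h11.trans h16
  have h18 : 1 + s ^ 2 / 4 ≤ (1 + s ^ 2 / 32) ^ 2 := by
    have : (1 + s ^ 2 / 4) * NN ≤ (1 + s ^ 2 / 32) ^ 2 * NN := by linarith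
    exact le_of_mul_le_mul_right this hNN0
  nlinarith

end Pool.Agent.Results.MP_082b65_an.ConstantFailureFails
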